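import Mathlib
import Pool.Agent.P8H15.FG.Stm2
import Pool.Agent.P8H5.FG.Lam2

/-!
Package LAM3 of project FG (helper75): the sum of the squares of the von Mangoldt function with its second
order term.
-/

set_option autoImplicit false

namespace Pool.Agent.P8H75.FG

open Finset ArithmeticFunction
open Pool.Agent.P8H15.FG
open Pool.Agent.P8H5.FG (psi_nat')

theorem log_pow_le (B : ℕ) : ∃ c : ℝ, 0 < c ∧ ∀ x : ℝ, 1 ≤ x → Real.log x ^ B ≤ c * √x := by
  refine ⟨(2 * ((B : ℝ) + 1)) ^ B, by positivity, fun x hx => ?_⟩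
  have hx0 : 0 ≤ x := by linarith
  have hε : (0 : ℝ) < 1 / (2 * ((B : ℝ) + 1)) := by positivity
  have h1 := Real.log_le_rpow_div hx0 hε
  have h2 : Real.log x ≤ (2 * ((B : ℝ) + 1)) * x ^ (1 / (2 * ((B : ℝ) + 1))) := by
    refine h1.trans (le_of_eq ?_)
    field_simp
  have h3 : Real.log x ^ B ≤ ((2 * ((B : ℝ) + 1)) * x ^ (1 / (2 * ((B : ℝ) + 1)))) ^ B :=
    pow_le_pow_left₀ (Real.log_nonneg hx) h2 B
  refine h3.trans ?_
  rw [mul_pow, ← Real.rpow_natCast (x ^ _), ← Real.rpow_mul hx0, Real.sqrt_eq_rpow]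
  refine mul_le_mul_of_nonneg_left (Real.rpow_le_rpow_of_exponent_le hx ?_) (by positivity)
  rw [one_div_mul_eq_div, div_le_div_iff₀ (by positivity) (by norm_num)]
  linarith

/-- Abel summation, exact form. -/
theorem abel_exact : ∀ X : ℕ, 1 ≤ X →
    ∑ n ∈ Icc 1 X, vonMangoldt n * Real.log n = Chebyshev.psi (X : ℝ) * Real.log X -
      ∑ n ∈ Ico 1 X, Chebyshev.psi (n : ℝ) * (Real.log ((n : ℝ) + 1) - Real.log n) := by
  intro X hX
  induction X, hX using Nat.le_induction with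
  | base => simp
  | succ X hX ih =>
    have e1 : Chebyshev.psi ((X + 1 : ℕ) : ℝ) = Chebyshev.psi (X : ℝ) + vonMangoldt (X + 1) := by
      rw [psi_nat', psi_nat', sum_Icc_succ_top (by omega)]
    rw [sum_Icc_succ_top (by omega), sum_Ico_succ_top hX, ih, e1]
    push_cast
    ring

/-- the increments of the logarithm -/
theorem incr {n : ℕ} (hn : 1 ≤ n) : 1 / ((n : ℝ) + 1) ≤ Real.log ((n : ℝ) + 1) - Real.log n ∧
    Real.log ((n : ℝ) + 1) - Real.log n ≤ 1 / n := by
  have hn0 : (0 : ℝ) < n := by exact_mod_cast hn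
  constructor
  · have h := Real.log_le_sub_one_of_pos (x := (n : ℝ) / (n + 1)) (by positivity)
    rw [Real.log_div hn0.ne' (by positivity)] at h
    have h2 : (n : ℝ) / (n + 1) - 1 = -(1 / ((n : ℝ) + 1)) := by field_simp; ring
    linarith
  · have h := Real.log_le_sub_one_of_pos (x := ((n : ℝ) + 1) / n) (by positivity)
    rw [Real.log_div (by positivity) hn0.ne'] at h
    have h2 : ((n : ℝ) + 1) / n - 1 = 1 / n := by field_simp; ring
    linarith

theorem sum_incr : ∀ X : ℕ, 1 ≤ X →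
    ∑ n ∈ Ico 1 X, (Real.log ((n : ℝ) + 1) - Real.log n) = Real.log X := by
  intro X hX
  induction X, hX using Nat.le_induction with
  | base => simp
  | succ X hX ih =>
    rw [sum_Ico_succ_top hX, ih]
    push_cast
    ring

theorem sum_n_incr (X : ℕ) (hX : 1 ≤ X) :
    |∑ n ∈ Ico 1 X, (n : ℝ) * (Real.log ((n : ℝ) + 1) - Real.log n) - X| ≤ 1 + Real.log X := by
  have h1 : ∑ n ∈ Ico 1 X, (n : ℝ) * (Real.log ((n : ℝ) + 1) - Real.log n) ≤
      ∑ n ∈ Ico 1 X, (1 : ℝ) := by
    refine sum_le_sum fun n hn => ?_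
    rw [mem_Ico] at hn
    have hn0 : (0 : ℝ) < n := by exact_mod_cast hn.1
    calc _ ≤ (n : ℝ) * (1 / n) := mul_le_mul_of_nonneg_left (incr hn.1).2 hn0.le
      _ = 1 := by field_simp
  have h2 : ∑ n ∈ Ico 1 X, ((1 : ℝ) - (Real.log ((n : ℝ) + 1) - Real.log n)) ≤
      ∑ n ∈ Ico 1 X, (n : ℝ) * (Real.log ((n : ℝ) + 1) - Real.log n) := by
    refine sum_le_sum fun n hn => ?_
    rw [mem_Ico] at hn
    have hn0 : (0 : ℝ) < n := by exact_mod_cast hn.1
    have h3 := (incr hn.1).1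
    have h4 : ((n : ℝ) + 1) * (1 / ((n : ℝ) + 1)) ≤
        ((n : ℝ) + 1) * (Real.log ((n : ℝ) + 1) - Real.log n) :=
      mul_le_mul_of_nonneg_left h3 (by positivity)
    rw [mul_one_div_cancel (by positivity)] at h4
    linarith
  rw [sum_sub_distrib, sum_incr X hX] at h2
  rw [sum_const, Nat.card_Ico, nsmul_eq_mul, mul_one, Nat.cast_sub hX, Nat.cast_one] at h1 h2
  have hL : 0 ≤ Real.log X := Real.log_natCast_nonneg X
  rw [abs_le]
  constructor <;> linarith

/-- the sum of the inverse powers of the logarithm -/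
theorem sum_inv_log (B : ℕ) (X : ℕ) (hX : 2 ≤ X) : ∑ n ∈ Ico 2 X, 1 / Real.log n ^ B ≤
    √(X : ℝ) / Real.log 2 ^ B + 2 ^ B * X / Real.log X ^ B := by
  have hX0 : (0 : ℝ) < X := by exact_mod_cast (by omega : 0 < X)
  have hL : 0 < Real.log X := Real.log_pos (by exact_mod_cast (by omega : 1 < X))
  have hl2 : 0 < Real.log 2 := Real.log_pos (by norm_num)
  have h1 : ∀ n ∈ Ico 2 X, 1 / Real.log n ^ B ≤
      (if n ≤ Nat.sqrt X then 1 / Real.log 2 ^ B else 0) + 2 ^ B / Real.log X ^ B := by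
    intro n hn
    rw [mem_Ico] at hn
    have hn0 : (2 : ℝ) ≤ n := by exact_mod_cast hn.1
    have hln : Real.log 2 ≤ Real.log n := Real.log_le_log (by norm_num) hn0
    split_ifs with h
    · have h2 : 1 / Real.log n ^ B ≤ 1 / Real.log 2 ^ B :=
        one_div_le_one_div_of_le (by positivity) (pow_le_pow_left₀ hl2.le hln B)
      have h3 : 0 ≤ 2 ^ B / Real.log X ^ B := by positivity
      linarith
    · have h2 : X < n * n := by
        rw [not_le, Nat.sqrt_lt] at h
        exact h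
      have h3 : Real.log X ≤ 2 * Real.log n := by
        have h4 : Real.log X ≤ Real.log ((n : ℝ) * n) :=
          Real.log_le_log hX0 (by exact_mod_cast h2.le)
        rw [Real.log_mul (by linarith) (by linarith)] at h4
        linarith
      rw [zero_add, div_le_div_iff₀ (pow_pos (by linarith) B) (by positivity), one_mul, ← mul_pow]
      exact pow_le_pow_left₀ hL.le h3 B
  refine (sum_le_sum h1).trans ?_
  rw [sum_add_distrib, ← sum_filter, sum_const, sum_const, nsmul_eq_mul, nsmul_eq_mul,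
    Nat.card_Ico]
  have h4 : (((Ico 2 X).filter (fun n => n ≤ Nat.sqrt X)).card : ℝ) ≤ √(X : ℝ) := by
    have h5 : ((Ico 2 X).filter (fun n => n ≤ Nat.sqrt X)).card ≤ Nat.sqrt X := by
      calc _ ≤ (Icc 1 (Nat.sqrt X)).card := by
            refine card_le_card fun n hn => ?_
            rw [mem_filter, mem_Ico] at hn
            rw [mem_Icc]
            omega
        _ = Nat.sqrt X := by rw [Nat.card_Icc, Nat.add_sub_cancel]
    exact (by exact_mod_cast h5 : (((Ico 2 X).filter (fun n => n ≤ Nat.sqrt X)).card : ℝ) ≤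
      (Nat.sqrt X : ℝ)).trans Real.nat_sqrt_le_real_sqrt
  have h6 : ((X - 2 : ℕ) : ℝ) ≤ X := by exact_mod_cast Nat.sub_le X 2
  calc _ ≤ √(X : ℝ) * (1 / Real.log 2 ^ B) + X * (2 ^ B / Real.log X ^ B) := by gcongr
    _ = _ := by ring

theorem lam3 : S_PNTL → S_LAM3 := by
  intro hP B
  obtain ⟨C, hC, h⟩ := hP (B + 1)
  obtain ⟨C2, hC2, h2⟩ := hP B
  obtain ⟨C1, h1⟩ := Chebyshev.psi_sub_theta_le_mul_sqrt
  obtain ⟨c, hc, hlog1⟩ := log_pow_le (B + 1)
  obtain ⟨c', hc', hlog2⟩ := log_pow_le B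
  have hl2 : 0 < Real.log 2 := Real.log_pos (by norm_num)
  refine ⟨C + (c' + C2 * (c' / Real.log 2 ^ B + 2 ^ B)) + (c' + c) + |C1| * c, by positivity,
    fun X hX => ?_⟩
  have hX0 : (0 : ℝ) < X := by exact_mod_cast (by omega : 0 < X)
  have hX1 : (1 : ℝ) ≤ X := by exact_mod_cast (by omega : 1 ≤ X)
  have hL : 0 < Real.log X := Real.log_pos (by exact_mod_cast (by omega : 1 < X))
  have hLB : 0 < Real.log X ^ B := by positivity
  have hs0 : 0 < √(X : ℝ) := by positivity
  have hs1 : 1 ≤ √(X : ℝ) := by rw [Real.one_le_sqrt]; exact hX1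
  have hss : √(X : ℝ) * √(X : ℝ) = X := Real.mul_self_sqrt hX0.le
  -- comparison with the target
  have k1 : √(X : ℝ) ≤ c' * X / Real.log X ^ B := by
    rw [le_div_iff₀ hLB]
    calc √(X : ℝ) * Real.log X ^ B ≤ √(X : ℝ) * (c' * √(X : ℝ)) :=
          mul_le_mul_of_nonneg_left (hlog2 X hX1) hs0.le
      _ = c' * (√(X : ℝ) * √(X : ℝ)) := by ring
      _ = c' * X := by rw [hss]
  have k2 : √(X : ℝ) * Real.log X ≤ c * X / Real.log X ^ B := by
    rw [le_div_iff₀ hLB]
    calc √(X : ℝ) * Real.log X * Real.log X ^ B = √(X : ℝ) * Real.log X ^ (B + 1) := by ring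
      _ ≤ √(X : ℝ) * (c * √(X : ℝ)) := mul_le_mul_of_nonneg_left (hlog1 X hX1) hs0.le
      _ = c * (√(X : ℝ) * √(X : ℝ)) := by ring
      _ = c * X := by rw [hss]
  -- the prime powers
  have hd : ∑ n ∈ Icc 1 X, vonMangoldt n * Real.log n - ∑ n ∈ Icc 1 X, vonMangoldt n ^ 2 =
      ∑ n ∈ Icc 1 X, vonMangoldt n * (Real.log n - vonMangoldt n) := by
    rw [← sum_sub_distrib]
    refine sum_congr rfl fun n _ => ?_
    ring
  have hd0 : 0 ≤ ∑ n ∈ Icc 1 X, vonMangoldt n * (Real.log n - vonMangoldt n) :=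
    sum_nonneg fun n _ => mul_nonneg vonMangoldt_nonneg (sub_nonneg.2 vonMangoldt_le_log)
  have hd1 : ∑ n ∈ Icc 1 X, vonMangoldt n * (Real.log n - vonMangoldt n) ≤
      Real.log X * (Chebyshev.psi (X : ℝ) - Chebyshev.theta (X : ℝ)) := by
    rw [Chebyshev.psi_sub_theta_eq_sum_not_prime, Nat.floor_natCast, mul_sum]
    have hI : Icc 1 X = Ioc 0 X := by
      ext n
      simp only [mem_Ioc, mem_Icc]
      omega
    rw [hI, sum_filter]
    refine sum_le_sum fun n hn => ?_
    rw [mem_Ioc] at hn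
    split_ifs with hp
    · rw [vonMangoldt_apply_prime hp, sub_self, mul_zero]
    · have h5 : Real.log n ≤ Real.log X :=
        Real.log_le_log (by exact_mod_cast hn.1) (by exact_mod_cast hn.2)
      have h6 : 0 ≤ vonMangoldt n := vonMangoldt_nonneg
      nlinarith
  have hd2 : Real.log X * (Chebyshev.psi (X : ℝ) - Chebyshev.theta (X : ℝ)) ≤
      |C1| * (√(X : ℝ) * Real.log X) := by
    have h5 := h1 X
    have h6 : C1 * √(X : ℝ) ≤ |C1| * √(X : ℝ) :=
      mul_le_mul_of_nonneg_right (le_abs_self C1) (by positivity)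
    calc _ ≤ Real.log X * (|C1| * √(X : ℝ)) := by
          refine mul_le_mul_of_nonneg_left (h5.trans h6) hL.le
      _ = _ := by ring
  -- the main term
  have hh := h X hX
  rw [← psi_nat'] at hh
  have hm : |Chebyshev.psi (X : ℝ) * Real.log X - X * Real.log X| ≤ C * X / Real.log X ^ B := by
    rw [← sub_mul, abs_mul, abs_of_pos hL]
    calc _ ≤ C * X / Real.log X ^ (B + 1) * Real.log X := by gcongr
      _ = _ := by
          rw [pow_succ]
          field_simp
  -- the sum with the errors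
  have hE : |∑ n ∈ Ico 1 X, Chebyshev.psi (n : ℝ) * (Real.log ((n : ℝ) + 1) - Real.log n) -
      ∑ n ∈ Ico 1 X, (n : ℝ) * (Real.log ((n : ℝ) + 1) - Real.log n)| ≤
      1 + C2 * ∑ n ∈ Ico 2 X, 1 / Real.log n ^ B := by
    rw [← sum_sub_distrib]
    refine (abs_sum_le_sum_abs _ _).trans ?_
    rw [sum_eq_sum_Ico_succ_bot (by omega : 1 < X), mul_sum]
    refine add_le_add ?_ (sum_le_sum fun n hn => ?_)
    · have : Chebyshev.psi ((1 : ℕ) : ℝ) = 0 := by
        rw [psi_nat']; simp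
      rw [this, Nat.cast_one, Real.log_one]
      rw [zero_mul, zero_sub, one_mul, sub_zero, abs_neg, abs_of_pos (Real.log_pos (by norm_num))]
      have := Real.log_le_sub_one_of_pos (x := (1 : ℝ) + 1) (by norm_num)
      linarith
    · rw [mem_Ico] at hn
      have hn0 : (0 : ℝ) < n := by exact_mod_cast (by omega : 0 < n)
      obtain ⟨i1, i2⟩ := incr (by omega : 1 ≤ n)
      have i0 : 0 ≤ Real.log ((n : ℝ) + 1) - Real.log n := le_trans (by positivity) i1
      have h3 := h2 n hn.1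
      rw [← psi_nat'] at h3
      rw [← sub_mul, abs_mul, abs_of_nonneg i0]
      have hln : 0 < Real.log n := Real.log_pos (by exact_mod_cast (by omega : 1 < n))
      calc _ ≤ C2 * n / Real.log n ^ B * (1 / n) :=
            mul_le_mul h3 i2 i0 (by positivity)
        _ = _ := by field_simp
  have hA := abel_exact X (by omega)
  have hS := sum_n_incr X (by omega)
  have hI := sum_inv_log B X hX
  have hI2 : C2 * ∑ n ∈ Ico 2 X, 1 / Real.log n ^ B ≤
      C2 * (c' / Real.log 2 ^ B + 2 ^ B) * (X / Real.log X ^ B) := by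
    rw [mul_assoc]
    refine mul_le_mul_of_nonneg_left (hI.trans ?_) hC2.le
    have : √(X : ℝ) / Real.log 2 ^ B ≤ (c' * X / Real.log X ^ B) / Real.log 2 ^ B := by
      gcongr
    calc _ ≤ (c' * X / Real.log X ^ B) / Real.log 2 ^ B + 2 ^ B * X / Real.log X ^ B := by
          linarith
      _ = _ := by ring
  set W : ℝ := X / Real.log X ^ B with hW
  have hk1 : √(X : ℝ) ≤ c' * W := by rw [hW, ← mul_div_assoc]; exact k1
  have hk2 : √(X : ℝ) * Real.log X ≤ c * W := by rw [hW, ← mul_div_assoc]; exact k2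
  have hk3 : Real.log X ≤ √(X : ℝ) * Real.log X := by nlinarith
  have hk4 : |C1| * (√(X : ℝ) * Real.log X) ≤ |C1| * c * W := by
    rw [mul_assoc]
    exact mul_le_mul_of_nonneg_left hk2 (abs_nonneg _)
  rw [mul_div_assoc] at hm
  rw [mul_div_assoc, ← hW]
  rw [abs_le] at hm hE hS ⊢
  have hexp : (C + (c' + C2 * (c' / Real.log 2 ^ B + 2 ^ B)) + (c' + c) + |C1| * c) * W =
      C * W + (c' * W + C2 * (c' / Real.log 2 ^ B + 2 ^ B) * W) + (c' * W + c * W) + |C1| * c * W := by
    ring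
  rw [hexp]
  constructor <;> linarith [hm.1, hm.2, hE.1, hE.2, hS.1, hS.2]

end Pool.Agent.P8H75.FG
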